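import Pool.Agent.Helper96.ME.Defs
import Pool.Agent.Helper84.MP.TILE

/-! # TILW: Hecke operators on symbols -/

set_option autoImplicit false

namespace Pool.Agent.Helper96.ME

open Pool.Agent.Helper96.MP
open scoped MatrixGroups

/-- exactly one `t` with `n ∣ (a, M b; 0, d) X` -/
theorem tilw_one (hH : ST_HERM) (M n : ℕ) (hn : 1 ≤ n) (hM : Nat.Coprime n M)
    (x00 x01 x10 x11 : ℤ) (hdet : x00 * x11 - x01 * x10 = (n : ℤ)) :
    ∃ t ∈ Tn n, (∃ y00 y01 y10 y11 : ℤ, y00 * y11 - y01 * y10 = 1 ∧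
      (t.1 : ℤ) * x00 + t.2.1 * (M * x10) = n * y00 ∧
      (t.1 : ℤ) * x01 + t.2.1 * (M * x11) = n * y01 ∧
      (t.2.2 : ℤ) * x10 = n * y10 ∧ (t.2.2 : ℤ) * x11 = n * y11 ∧
      x10 = t.1 * y10 ∧ x11 = t.1 * y11) ∧
      ∀ s ∈ Tn n, ((n : ℤ) ∣ s.1 * x00 + s.2.1 * (M * x10) ∧
        (n : ℤ) ∣ s.1 * x01 + s.2.1 * (M * x11) ∧
        (n : ℤ) ∣ s.2.2 * x10 ∧ (n : ℤ) ∣ s.2.2 * x11) → s = t := by
  obtain ⟨t, ht, ⟨p', q', r', s', d0, d1, d2, d3, d4, d5, d6⟩, hu⟩ :=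
    tile_one hH n hn x00 x01 x10 x11 hdet
  have htn := (tile_tn n t hn).mp ht
  have hd0 : (0 : ℤ) < t.2.2 := by
    have := htn.2
    exact_mod_cast (by omega : 0 < t.2.2)
  have hcop : ∀ d : ℕ, d ∣ n → IsCoprime (M : ℤ) (d : ℤ) := by
    intro d hd
    rw [Nat.isCoprime_iff_coprime]
    exact (Nat.Coprime.coprime_dvd_left hd hM).symm
  obtain ⟨u, v, huv⟩ := hcop t.2.2 ⟨t.1, by rw [mul_comm]; exact htn.1.symm⟩
  set b' : ℤ := (u * t.2.1) % t.2.2 with hb'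
  have hb0 : 0 ≤ b' := Int.emod_nonneg _ hd0.ne'
  have hb1 : b' < t.2.2 := Int.emod_lt_of_pos _ hd0
  obtain ⟨b, hb⟩ := Int.eq_ofNat_of_zero_le hb0
  have hbe : ∃ e : ℤ, (M : ℤ) * b - t.2.1 = t.2.2 * e := by
    have h1 : b' = u * t.2.1 - t.2.2 * (u * t.2.1 / t.2.2) := by
      rw [hb', Int.emod_def]
    refine ⟨-v * t.2.1 - M * (u * t.2.1 / t.2.2), ?_⟩
    rw [← hb, h1]
    linear_combination (t.2.1 : ℤ) * huv
  obtain ⟨e, he⟩ := hbe
  refine ⟨(t.1, b, t.2.2), ?_, ⟨s' - e * r', -q' + e * p', -r', p', ?_, ?_, ?_, d3, d4, d5, d6⟩, ?_⟩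
  · rw [tile_tn n _ hn]
    refine ⟨htn.1, ?_⟩
    rw [hb] at hb1
    show b < t.2.2
    exact_mod_cast hb1
  · linear_combination d0
  · show (t.1 : ℤ) * x00 + (b : ℤ) * (M * x10) = n * (s' - e * r')
    linear_combination d1 + x10 * he + e * d3
  · show (t.1 : ℤ) * x01 + (b : ℤ) * (M * x11) = n * (-q' + e * p')
    linear_combination d2 + x11 * he + e * d4
  · rintro s hs ⟨a1, a2, a3, a4⟩
    have hsn := (tile_tn n s hn).mp hs
    have hsd : 0 < s.2.2 := by have := hsn.2; omega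
    have hdiv : (M : ℤ) * s.2.1 = s.2.2 * ((M * s.2.1 / s.2.2 : ℕ) : ℤ) + ((M * s.2.1 % s.2.2 : ℕ) : ℤ) := by
      have := Nat.div_add_mod (M * s.2.1) s.2.2
      exact_mod_cast this.symm
    have hs0 : ((s.1, M * s.2.1 % s.2.2, s.2.2) : ℕ × ℕ × ℕ) = t := by
      apply hu
      · rw [tile_tn n _ hn]
        exact ⟨hsn.1, Nat.mod_lt _ hsd⟩
      · refine ⟨?_, ?_, a3, a4⟩
        · show (n : ℤ) ∣ (s.1 : ℤ) * x00 + ((M * s.2.1 % s.2.2 : ℕ) : ℤ) * x10
          have : (s.1 : ℤ) * x00 + ((M * s.2.1 % s.2.2 : ℕ) : ℤ) * x10 =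
              (s.1 * x00 + s.2.1 * (M * x10)) -
                ((M * s.2.1 / s.2.2 : ℕ) : ℤ) * (s.2.2 * x10) := by
            linear_combination (-x10) * hdiv
          rw [this]
          exact dvd_sub a1 (Dvd.dvd.mul_left a3 _)
        · show (n : ℤ) ∣ (s.1 : ℤ) * x01 + ((M * s.2.1 % s.2.2 : ℕ) : ℤ) * x11
          have : (s.1 : ℤ) * x01 + ((M * s.2.1 % s.2.2 : ℕ) : ℤ) * x11 =
              (s.1 * x01 + s.2.1 * (M * x11)) -
                ((M * s.2.1 / s.2.2 : ℕ) : ℤ) * (s.2.2 * x11) := by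
            linear_combination (-x11) * hdiv
          rw [this]
          exact dvd_sub a2 (Dvd.dvd.mul_left a4 _)
    obtain ⟨s1, s2, s3⟩ := s
    obtain ⟨t1, t2, t3⟩ := t
    simp only [Prod.mk.injEq] at hs0
    obtain ⟨e1, e2, e3⟩ := hs0
    subst e1 e3
    simp only [Prod.mk.injEq, true_and, and_true]
    have h1 : (s3 : ℤ) ∣ (M : ℤ) * ((s2 : ℤ) - b) := by
      have h2 : (M : ℤ) * ((s2 : ℤ) - b) = s3 * (((M * s2 / s3 : ℕ) : ℤ) - e) := by
        have h3 : ((M * s2 % s3 : ℕ) : ℤ) = t2 := by exact_mod_cast e2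
        have h4 := hdiv
        simp only at h4 he
        rw [h3] at h4
        linear_combination h4 - he
      rw [h2]
      exact dvd_mul_right _ _
    have h2 : (s3 : ℤ) ∣ (s2 : ℤ) - b :=
      (hcop s3 ⟨s1, by rw [mul_comm]; exact htn.1.symm⟩).symm.dvd_of_dvd_mul_left h1
    have h3 : s2 < s3 := hsn.2
    have h4 : (b : ℤ) < s3 := by rw [← hb]; exact hb1
    obtain ⟨c, hc⟩ := h2
    have h5 : c = 0 := by
      by_contra hne
      rcases lt_or_gt_of_ne hne with h | h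
      · have : (s3 : ℤ) * c ≤ s3 * (-1) := by
          apply mul_le_mul_of_nonneg_left _ (by positivity)
          omega
        have h6 : (0 : ℤ) ≤ s2 := by positivity
        linarith
      · have : (s3 : ℤ) * 1 ≤ s3 * c := by
          apply mul_le_mul_of_nonneg_left _ (by positivity)
          omega
        have h6 : (0 : ℤ) ≤ b := by positivity
        have h7 : (s2 : ℤ) < s3 := by exact_mod_cast h3
        linarith
    rw [h5, mul_zero] at hc
    have : (s2 : ℤ) = b := by linarith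
    exact_mod_cast this

/-- invariance of the symbol of a potential -/
theorem tilw_eq (M Q : ℕ) (hM : 1 ≤ M) (hQM : Nat.Coprime Q M) (C : ℤ → ℤ → ℝ)
    (hE : EqC (Q * M ^ 2) C) (a y00 y01 y10 y11 f00 f01 f10 f11 : ℤ)
    (ha : IsCoprime a (M : ℤ)) (hy : y00 * y11 - y01 * y10 = 1)
    (hf : f00 * f11 - f01 * f10 = 1) (h1 : (M : ℤ) ∣ y00 - a * f00)
    (h2 : (M : ℤ) ∣ y01 - a * f01) (h3 : (M : ℤ) ∣ a * y10 - f10) (h4 : (M : ℤ) ∣ a * y11 - f11)
    (hc : eqv Q f10 f11 y10 y11) :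
    C y00 (M * y10) - C y01 (M * y11) = C f00 (M * f10) - C f01 (M * f11) := by
  have hM0 : (M : ℤ) ≠ 0 := by
    have : M ≠ 0 := by omega
    exact_mod_cast this
  have e1 : (M : ℤ) ∣ y01 * f00 - y00 * f01 := by
    have : y01 * f00 - y00 * f01 = (y01 - a * f01) * f00 - (y00 - a * f00) * f01 := by ring
    rw [this]
    exact dvd_sub (Dvd.dvd.mul_right h2 _) (Dvd.dvd.mul_right h1 _)
  have e2 : (M : ℤ) ∣ y10 * f11 - y11 * f10 := by
    apply ha.symm.dvd_of_dvd_mul_left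
    have : a * (y10 * f11 - y11 * f10) = (a * y10 - f10) * f11 - (a * y11 - f11) * f10 := by ring
    rw [this]
    exact dvd_sub (Dvd.dvd.mul_right h3 _) (Dvd.dvd.mul_right h4 _)
  have e3 : (Q : ℤ) ∣ y10 * f11 - y11 * f10 := by
    obtain ⟨l, -, k1, k2⟩ := hc
    have : y10 * f11 - y11 * f10 = (y10 - l * f10) * f11 - (y11 - l * f11) * f10 := by ring
    rw [this]
    exact dvd_sub (Dvd.dvd.mul_right k1 _) (Dvd.dvd.mul_right k2 _)
  have hcop : IsCoprime (Q : ℤ) (M : ℤ) := Nat.isCoprime_iff_coprime.2 hQM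
  have e4 : ((Q : ℤ) * M) ∣ y10 * f11 - y11 * f10 := hcop.mul_dvd e3 e2
  obtain ⟨b, hb⟩ := e1
  obtain ⟨c, hc'⟩ := e4
  have hG : G0 (Q * M ^ 2) (y00 * f11 - y01 * f10) b (M * (y10 * f11 - y11 * f10))
      (y11 * f00 - y10 * f01) := by
    refine ⟨?_, ?_⟩
    · have : b * (M * (y10 * f11 - y11 * f10)) = (y01 * f00 - y00 * f01) *
          (y10 * f11 - y11 * f10) := by rw [hb]; ring
      rw [this]
      linear_combination (f00 * f11 - f01 * f10) * hy + hf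
    · rw [hc']
      push_cast
      exact ⟨c, by ring⟩
  have k1 := hE _ _ _ _ hG f00 (M * f10) (by
    by_contra hcon
    push Not at hcon
    obtain ⟨g1, g2⟩ := hcon
    have g3 : f10 = 0 := (mul_eq_zero.1 g2).resolve_left hM0
    rw [g1, g3] at hf
    simp at hf)
  have k2 := hE _ _ _ _ hG f01 (M * f11) (by
    by_contra hcon
    push Not at hcon
    obtain ⟨g1, g2⟩ := hcon
    have g3 : f11 = 0 := (mul_eq_zero.1 g2).resolve_left hM0
    rw [g1, g3] at hf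
    simp at hf)
  have r1 : (y00 * f11 - y01 * f10) * f00 + b * (M * f10) = y00 := by
    linear_combination y00 * hf - f10 * hb
  have r2 : M * (y10 * f11 - y11 * f10) * f00 + (y11 * f00 - y10 * f01) * (M * f10) =
      M * y10 := by
    linear_combination M * y10 * hf
  have r3 : (y00 * f11 - y01 * f10) * f01 + b * (M * f11) = y01 := by
    linear_combination y01 * hf - f11 * hb
  have r4 : M * (y10 * f11 - y11 * f10) * f01 + (y11 * f00 - y10 * f01) * (M * f11) =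
      M * y11 := by
    linear_combination M * y11 * hf
  rw [r1, r2] at k1
  rw [r3, r4] at k2
  rw [k1, k2]
  ring

theorem st_TILW (hH : ST_HERM) (hCh : ST_CHAIN) : ST_TILW := by
  classical
  intro M Q n C w hM hQ hQM hn hnco hom hE hPW y F hF
  have hnz : (n : ℤ) ≠ 0 := by
    have : n ≠ 0 := by omega
    exact_mod_cast this
  have hnM : Nat.Coprime n M := Nat.Coprime.coprime_dvd_right ⟨Q * M, by ring⟩ hnco
  have hnQ : Nat.Coprime n Q := Nat.Coprime.coprime_dvd_right ⟨M ^ 2, rfl⟩ hnco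
  set p := y 0 0 with hp
  set x := y 0 1 with hx
  set q := y 1 0 with hq
  set r := y 1 1 with hr
  have hdet : p * r - x * q = 1 := by
    have h := y.2
    rw [Matrix.det_fin_two] at h
    exact h
  -- right hand side by CHAIN
  have h1 : ∀ t ∈ Tn n, (C (t.1 * p + t.2.1 * (M * q)) (t.2.2 * (M * q)) -
      C (t.1 * x + t.2.1 * (M * r)) (t.2.2 * (M * r))) =
      ∑ m ∈ Sn n, if ((n : ℤ) ∣ (t.1 : ℤ) * (p * m.1 + x * m.2.2.1) +
            t.2.1 * (M * (q * m.1 + r * m.2.2.1)) ∧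
          (n : ℤ) ∣ (t.1 : ℤ) * (p * m.2.1 + x * m.2.2.2) +
            t.2.1 * (M * (q * m.2.1 + r * m.2.2.2)) ∧
          (n : ℤ) ∣ (t.2.2 : ℤ) * (q * m.1 + r * m.2.2.1) ∧
          (n : ℤ) ∣ (t.2.2 : ℤ) * (q * m.2.1 + r * m.2.2.2)) then
        C ((t.1 : ℤ) * (p * m.1 + x * m.2.2.1) + t.2.1 * (M * (q * m.1 + r * m.2.2.1)))
            (M * (t.2.2 * (q * m.1 + r * m.2.2.1))) -
          C ((t.1 : ℤ) * (p * m.2.1 + x * m.2.2.2) + t.2.1 * (M * (q * m.2.1 + r * m.2.2.2)))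
            (M * (t.2.2 * (q * m.2.1 + r * m.2.2.2))) else 0 := by
    intro t ht
    have htn := (tile_tn n t hn).mp ht
    have hz : (t.1 : ℤ) * t.2.2 = n := by exact_mod_cast htn.1
    have key := hCh ℝ n hn (fun a b => C ((t.1 * p + t.2.1 * (M * q)) * a +
      (t.1 * x + t.2.1 * (M * r)) * b) (t.2.2 * (M * q) * a + t.2.2 * (M * r) * b)) (by
        intro k a b hk
        simp only
        rw [← hom k ((t.1 * p + t.2.1 * (M * q)) * a + (t.1 * x + t.2.1 * (M * r)) * b) _ hk]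
        congr 1 <;> ring) (t.1 * p + t.2.1 * (M * q)) (t.1 * x + t.2.1 * (M * r)) (t.2.2 * q)
        (t.2.2 * r) (by
          have : ((t.1 : ℤ) * p + t.2.1 * (M * q)) * (t.2.2 * r) -
              (t.1 * x + t.2.1 * (M * r)) * (t.2.2 * q) = (t.1 * t.2.2) * (p * r - x * q) := by
            ring
          rw [this, hz, hdet, mul_one])
    simp only [mul_one, mul_zero, add_zero, zero_add] at key
    rw [← key, Finset.sum_filter]
    refine Finset.sum_congr rfl fun m _ => ?_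
    have r1 : ((t.1 : ℤ) * p + t.2.1 * (M * q)) * m.1 + (t.1 * x + t.2.1 * (M * r)) * m.2.2.1 =
        (t.1 : ℤ) * (p * m.1 + x * m.2.2.1) + t.2.1 * (M * (q * m.1 + r * m.2.2.1)) := by ring
    have r2 : ((t.1 : ℤ) * p + t.2.1 * (M * q)) * m.2.1 + (t.1 * x + t.2.1 * (M * r)) * m.2.2.2 =
        (t.1 : ℤ) * (p * m.2.1 + x * m.2.2.2) + t.2.1 * (M * (q * m.2.1 + r * m.2.2.2)) := by
      ring
    have r3 : (t.2.2 : ℤ) * q * m.1 + t.2.2 * r * m.2.2.1 =
        (t.2.2 : ℤ) * (q * m.1 + r * m.2.2.1) := by ring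
    have r4 : (t.2.2 : ℤ) * q * m.2.1 + t.2.2 * r * m.2.2.2 =
        (t.2.2 : ℤ) * (q * m.2.1 + r * m.2.2.2) := by ring
    have r5 : (t.2.2 : ℤ) * (M * q) * m.1 + t.2.2 * (M * r) * m.2.2.1 =
        M * ((t.2.2 : ℤ) * (q * m.1 + r * m.2.2.1)) := by ring
    have r6 : (t.2.2 : ℤ) * (M * q) * m.2.1 + t.2.2 * (M * r) * m.2.2.2 =
        M * ((t.2.2 : ℤ) * (q * m.2.1 + r * m.2.2.2)) := by ring
    rw [r1, r2, r3, r4, r5, r6]
  rw [Finset.sum_congr rfl h1, Finset.sum_comm]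
  refine Finset.sum_congr rfl fun m hm => ?_
  have hdm : (m.1 : ℤ) * m.2.2.2 = n + m.2.1 * m.2.2.1 := by
    unfold Sn at hm
    rw [Finset.mem_filter] at hm
    exact_mod_cast hm.2.2.2
  obtain ⟨t, ht, ⟨y00, y01, y10, y11, d0, d1, d2, d3, d4, d5, d6⟩, hu⟩ :=
    tilw_one hH M n hn hnM (p * m.1 + x * m.2.2.1) (p * m.2.1 + x * m.2.2.2)
      (q * m.1 + r * m.2.2.1) (q * m.2.1 + r * m.2.2.2) (by
        have : (p * m.1 + x * m.2.2.1) * (q * m.2.1 + r * m.2.2.2) -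
            (p * m.2.1 + x * m.2.2.2) * (q * m.1 + r * m.2.2.1) =
            (p * r - x * q) * ((m.1 : ℤ) * m.2.2.2 - m.2.1 * m.2.2.1) := by ring
        rw [this, hdet, hdm]; ring)
  rw [Finset.sum_eq_single t]
  · rw [if_pos ⟨⟨_, d1⟩, ⟨_, d2⟩, ⟨_, d3⟩, ⟨_, d4⟩⟩, d1, d2, d3, d4]
    have htn := (tile_tn n t hn).mp ht
    have hz : (t.1 : ℤ) * t.2.2 = n := by exact_mod_cast htn.1
    have hcopM : IsCoprime (t.1 : ℤ) (M : ℤ) := by
      rw [Nat.isCoprime_iff_coprime]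
      exact Nat.Coprime.coprime_dvd_left ⟨t.2.2, htn.1.symm⟩ hnM
    have hcopd : IsCoprime (t.2.2 : ℤ) (M : ℤ) := by
      rw [Nat.isCoprime_iff_coprime]
      exact Nat.Coprime.coprime_dvd_left ⟨t.1, by rw [mul_comm]; exact htn.1.symm⟩ hnM
    have hcopn : IsCoprime (n : ℤ) (M : ℤ) := Nat.isCoprime_iff_coprime.2 hnM
    have hcopQ : IsCoprime (t.1 : ℤ) (Q : ℤ) := by
      rw [Nat.isCoprime_iff_coprime]
      exact Nat.Coprime.coprime_dvd_left ⟨t.2.2, htn.1.symm⟩ hnQ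
    have hFm := hF m hm
    obtain ⟨g1, g2, g3, g4, g5⟩ := hFm
    have hFdet : (F m) 0 0 * (F m) 1 1 - (F m) 0 1 * (F m) 1 0 = 1 := by
      have h := (F m).2
      rw [Matrix.det_fin_two] at h
      exact h
    have hq1 : ((M : ℤ) * (n * y10)) = n * (M * y10) := by ring
    have hq2 : ((M : ℤ) * (n * y11)) = n * (M * y11) := by ring
    rw [hPW, hq1, hq2, hom _ _ _ hnz, hom _ _ _ hnz]
    symm
    refine tilw_eq M Q hM hQM C hE t.1 y00 y01 y10 y11 _ _ _ _ hcopM d0 hFdet ?_ ?_ ?_ ?_ ?_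
    · apply hcopn.symm.dvd_of_dvd_mul_left
      have : (n : ℤ) * (y00 - t.1 * (F m) 0 0) = M * (t.2.1 * (q * m.1 + r * m.2.2.1)) -
          t.1 * (n * (F m) 0 0 - (p * m.1 + x * m.2.2.1)) := by
        linear_combination -d1
      rw [this]
      exact dvd_sub (dvd_mul_right _ _) (Dvd.dvd.mul_left g1 _)
    · apply hcopn.symm.dvd_of_dvd_mul_left
      have : (n : ℤ) * (y01 - t.1 * (F m) 0 1) = M * (t.2.1 * (q * m.2.1 + r * m.2.2.2)) -
          t.1 * (n * (F m) 0 1 - (p * m.2.1 + x * m.2.2.2)) := by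
        linear_combination -d2
      rw [this]
      exact dvd_sub (dvd_mul_right _ _) (Dvd.dvd.mul_left g2 _)
    · rw [← d5]
      have : (q * m.1 + r * m.2.2.1) - (F m) 1 0 = -((F m) 1 0 - (q * m.1 + r * m.2.2.1)) := by
        ring
      rw [this]
      exact (dvd_neg).2 g3
    · rw [← d6]
      have : (q * m.2.1 + r * m.2.2.2) - (F m) 1 1 =
          -((F m) 1 1 - (q * m.2.1 + r * m.2.2.2)) := by
        ring
      rw [this]
      exact (dvd_neg).2 g4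
    · refine eqv_trans g5 (eqv_symm ⟨t.1, hcopQ, ?_, ?_⟩)
      · rw [d5, sub_self]
        exact dvd_zero _
      · rw [d6, sub_self]
        exact dvd_zero _
  · intro s hs hne
    rw [if_neg]
    intro h
    exact hne (hu s hs h)
  · intro h
    exact absurd ht h

end Pool.Agent.Helper96.ME
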